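import Mathlib
import Pool.Agent.H.MP_7b70e8_gt.B

set_option autoImplicit false

namespace Pool.Agent.Results.MP_24a1d9_gt.All

open Set Cardinal Pool.Agent.H.MP_9c4169_gt Pool.Agent.H.MP_f722f0_gt Pool.Agent.H.MP_7b70e8_gt

theorem result :
    (∀ X : Set ℝ, S1 (Om (Op X)) (Ta (Op X)) →
      ∀ k, S1 (Om (Op (Fin k → X))) (Ta (Op (Fin k → X)))) ∧
    (continuum = (aleph 1 : Cardinal.{0}) →
      (∃ X : Set ℝ, Sfin (Om (Op X)) (Ta (Op X)) ∧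
        ∀ k ≥ 2, ¬ Sfin (Om (Op (Fin k → X))) (Ta (Op (Fin k → X)))) ∧
      ∃ X : Set ℝ, (S1 (Ta (Op X)) (Ga (Op X)) ∧ S1 (Ta (Op X)) (Ta (Op X)) ∧
          S1 (Ta (Op X)) (Om (Op X)) ∧ Sfin (Ta (Op X)) (Ta (Op X)) ∧
          Sfin (Ta (Op X)) (Om (Op X))) ∧
        ∀ k ≥ 2, ¬ S1 (Ta (Op (Fin k → X))) (Ga (Op (Fin k → X))) ∧
          ¬ S1 (Ta (Op (Fin k → X))) (Ta (Op (Fin k → X))) ∧
          ¬ S1 (Ta (Op (Fin k → X))) (Om (Op (Fin k → X))) ∧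
          ¬ Sfin (Ta (Op (Fin k → X))) (Ta (Op (Fin k → X))) ∧
          ¬ Sfin (Ta (Op (Fin k → X))) (Om (Op (Fin k → X)))) := by
  refine ⟨fun X h k 𝒰 h𝒰 => ((pw (fun _ => sel_om h (hto' h)) h𝒰).ga fun n => (h𝒰 n).1).imp
    fun _ h => ⟨h.1, ga_ta h.2.1⟩, fun ch => ?_⟩
  obtain ⟨Z, -, h2, -, -, -, h3⟩ := H.MP_7b70e8_gt.key ch
  obtain ⟨Y, -, h4, -, -, h5⟩ := key' ch
  refine ⟨⟨Z, h2, fun k hk h => h3 (Fin k → Z) (· ⟨0, by omega⟩) (· ⟨1, by omega⟩) (by fun_prop)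
    (by fun_prop) (fun x y => ⟨fun i => if i.1 = 0 then x else y, by simp⟩) (finc h)⟩, Y,
    ⟨h4, h4.mono subset_rfl ga_ta, h4.mono subset_rfl ga_om, (h4.mono subset_rfl ga_ta).fin,
      (h4.mono subset_rfl ga_om).fin⟩, fun k hk => ?_⟩
  have h6 := (h5 (Fin k → Y) (· ⟨0, by omega⟩) (· ⟨1, by omega⟩) (by fun_prop)
    (by fun_prop) fun x y => ⟨fun i => if i.1 = 0 then x else y, by simp⟩).2
  exact ⟨fun h => h6 (h.fin.mono ga_ta fun _ h => h.1), fun h => h6 (h.fin.mono ga_ta fun _ h => h.1),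
    fun h => h6 (h.fin.mono ga_ta fun _ h => h.1), fun h => h6 (h.mono ga_ta fun _ h => h.1),
    fun h => h6 (h.mono ga_ta fun _ h => h.1)⟩

end Pool.Agent.Results.MP_24a1d9_gt.All
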